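import Pool.Agent.H84.SS.Targets
import Pool.Agent.H84.SS.LIM

/-!
# Return times for double recurrence, singular spectrum, M_B13: the second pair bound
-/

set_option autoImplicit false

namespace Pool.Agent.H17.SS

open MeasureTheory Filter Topology Set ProbabilityTheory
open scoped ENNReal ComplexConjugate
open Pool.Agent.H84.SS
open Pool.Agent.H85.RT (avg GoodWeight Good)
open Pool.Agent.H94.RTB (LGood PD)

universe u v

/-- the abstract pair bound -/
theorem abs_bound (hCSR : M_CSR.{u}) (hAEI : M_AEI.{u}) {X : Type u} (I : MeasurableSpace X)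
    [m0 : MeasurableSpace X] {μ : Measure X} [IsProbabilityMeasure μ] (hI : I ≤ m0)
    {y z : ℕ → X → ℂ} {Y : ℝ} {N : ℕ → X → ℕ} {θ : ℕ → X → ℂ} (hy : ∀ n, Measurable (y n))
    (hz : ∀ n, Measurable (z n)) (hyb : ∀ n x, ‖y n x‖ ≤ Y) (hzb : ∀ n x, ‖z n x‖ ≤ 1)
    (hR : RTimes N θ)
    (hconv : ∀ᵐ x ∂μ, ∃ l : ℝ, Tendsto (fun M : ℕ => (∑ n ∈ Finset.Icc 1 M, ‖y n x‖ ^ 2) / M)
      atTop (𝓝 l)) {R' : X → ℂ} {V : X → ℝ} (hRm : StronglyMeasurable[I] R')
    (hVm : StronglyMeasurable[I] V) (hRi : Integrable R' μ) (hVi : Integrable V μ)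
    (hl : ∀ Q, MeasurableSet[I] Q → Tendsto (fun i => ∫ x in Q, θ i x *
      ((∑ n ∈ Finset.Icc 1 (N i x), y n x * z n x) / (N i x : ℂ)) ∂μ) (hyperfilter ℕ)
      (𝓝 (∫ x in Q, R' x ∂μ)))
    (hV : ∀ Q, MeasurableSet[I] Q → Tendsto (fun M : ℕ => ∫ x in Q,
      (∑ n ∈ Finset.Icc 1 M, ‖y n x‖ ^ 2) / M ∂μ) atTop (𝓝 (∫ x in Q, V x ∂μ))) :
    ∀ᵐ x ∂μ, ‖R' x‖ ^ 2 ≤ V x := by
  refine hAEI X I μ hI R' V hRm hVm hRi hVi fun Q hQ => ?_
  have h := hCSR X μ y z Y 1 N θ Q hy hz hyb hzb hR (hI Q hQ) hconv _ _ (hl Q hQ) (hV Q hQ)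
  rwa [one_pow, one_mul] at h

/-- extension by zero -/
noncomputable def ez (s : Finset (ℕ × ℕ)) (v : {i // i ∈ s} → ℂ) (i : ℕ × ℕ) : ℂ := by
  classical exact if h : i ∈ s then v ⟨i, h⟩ else 0

theorem ez_of_mem {s : Finset (ℕ × ℕ)} (v : {i // i ∈ s} → ℂ) {i : ℕ × ℕ} (h : i ∈ s) :
    ez s v i = v ⟨i, h⟩ := by
  unfold ez
  rw [dif_pos h]

theorem ez_cont {s : Finset (ℕ × ℕ)} (i : ℕ × ℕ) : Continuous fun v => ez s v i := by
  by_cases h : i ∈ s
  · have : (fun v => ez s v i) = fun v => v ⟨i, h⟩ := by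
      funext v
      exact ez_of_mem v h
    rw [this]
    exact continuous_apply _
  · have : (fun v => ez s v i) = fun _ => 0 := by
      funext v
      unfold ez
      rw [dif_neg h]
    rw [this]
    exact continuous_const

theorem pf_B13 (h1 : M_CSR.{u}) (h2 : M_SQA.{u}) (h3 : M_SQB.{u}) (h4 : M_AEI.{u})
    (h5 : M_CTS.{u}) (h6 : M_PFE.{u}) : M_B13.{u} := by
  intro X _ μ _ T f g w p B N θ R hT hf hg hf1 hg1 hW hRT hL
  have hT' := mp_symm hT
  have hB : 0 ≤ B := (norm_nonneg _).trans (hW.bdd 0)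
  -- the bound for fixed parameters
  have key : ∀ (b : ℕ) (s : Finset (ℕ × ℕ)) (u : ℕ × ℕ → ℂ), ∀ᵐ x ∂μ,
      ‖∑ i ∈ s, u i * R i.1 b i.2 x‖ ^ 2 ≤ (∑ i ∈ s, ∑ j ∈ s, u i * conj (u j) *
        p ((i.1 : ℤ) - j.1) * cf μ T.symm g i.2 j.2 x).re := by
    intro b s u
    have hcfm : ∀ a c : ℕ, StronglyMeasurable[MeasurableSpace.invariants T]
        (cf μ T.symm g a c) := by
      intro a c
      have h := stronglyMeasurable_condExp (m := MeasurableSpace.invariants T.symm) (μ := μ)
        (f := fp T.symm g a c)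
      rw [invariants_symm] at h
      unfold cf
      rw [invariants_symm]
      exact h
    have hcfi : ∀ a c : ℕ, Integrable (cf μ T.symm g a c) μ := fun a c => integrable_condExp
    refine abs_bound h1 h4 (MeasurableSpace.invariants T) (MeasurableSpace.invariants_le T)
      (y := fun n x => ∑ i ∈ s, u i * (w (n + i.1) * g (T.symm^[n + i.2] x)))
      (z := fun n x => f (T^[n + b] x)) (Y := ∑ i ∈ s, ‖u i‖ * B) (N := N) (θ := θ)
      ?_ ?_ ?_ (fun n x => hf1 _) hRT (h2 B w p hW X μ T.symm g hT' hg hg1 s u)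
      (R' := fun x => ∑ i ∈ s, u i * R i.1 b i.2 x) ?_ ?_ ?_ ?_ ?_ ?_
    · intro n
      exact Finset.measurable_sum _ fun i _ => measurable_const.mul
        (measurable_const.mul (hg.comp (iter_meas T.symm _)))
    · intro n
      exact hf.comp (iter_meas T _)
    · intro n x
      refine (norm_sum_le _ _).trans (Finset.sum_le_sum fun i _ => ?_)
      rw [norm_mul, norm_mul]
      refine mul_le_mul_of_nonneg_left ?_ (norm_nonneg _)
      calc ‖w (n + i.1)‖ * ‖g (T.symm^[n + i.2] x)‖ ≤ B * 1 :=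
            mul_le_mul (hW.bdd _) (hg1 _) (norm_nonneg _) hB
        _ = B := mul_one B
    · exact Finset.stronglyMeasurable_fun_sum _ fun i _ => (hL.meas i.1 b i.2).const_mul (u i)
    · refine (Complex.continuous_re).comp_stronglyMeasurable ?_
      exact Finset.stronglyMeasurable_fun_sum _ fun i _ =>
        Finset.stronglyMeasurable_fun_sum _ fun j _ => (hcfm i.2 j.2).const_mul _
    · exact integrable_finsetSum _ fun i _ => (hL.int i.1 b i.2).const_mul (u i)
    · refine Integrable.re (f := fun x => ∑ i ∈ s, ∑ j ∈ s, u i * conj (u j) *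
        p ((i.1 : ℤ) - j.1) * cf μ T.symm g i.2 j.2 x) ?_
      exact integrable_finsetSum _ fun i _ => integrable_finsetSum _ fun j _ =>
        (hcfi i.2 j.2).const_mul _
    · intro Q hQ
      have hphi : ∀ k a c d, Integrable (ph T f g w (N k) (θ k) a c d) μ := by
        intro k a c d
        refine Integrable.of_bound (C := B)
          (ph_meas hf hg (hRT.measN k) (hRT.measθ k) a c d).aestronglyMeasurable
          (Eventually.of_forall fun x => ?_)
        exact ph_bdd hf1 hg1 hW.bdd (fun x => (Nat.le_add_left 1 k).trans (hRT.large k x))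
          (hRT.bddθ k) a c d x
      have e1 : ∀ k x, θ k x * ((∑ n ∈ Finset.Icc 1 (N k x),
          (∑ i ∈ s, u i * (w (n + i.1) * g (T.symm^[n + i.2] x))) * f (T^[n + b] x)) /
          (N k x : ℂ)) = ∑ i ∈ s, u i * ph T f g w (N k) (θ k) i.1 b i.2 x := by
        intro k x
        unfold ph
        simp only [Finset.sum_mul]
        rw [Finset.sum_comm, Finset.sum_div, Finset.mul_sum]
        refine Finset.sum_congr rfl fun i _ => ?_
        have e2 : ∑ n ∈ Finset.Icc 1 (N k x),
            u i * (w (n + i.1) * g (T.symm^[n + i.2] x)) * f (T^[n + b] x) =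
            u i * ∑ n ∈ Finset.Icc 1 (N k x),
              w (n + i.1) * f (T^[n + b] x) * g (T.symm^[n + i.2] x) := by
          rw [Finset.mul_sum]
          exact Finset.sum_congr rfl fun n _ => by ring
        rw [e2]
        ring
      simp only [e1]
      have e3 : ∀ k, ∫ x in Q, ∑ i ∈ s, u i * ph T f g w (N k) (θ k) i.1 b i.2 x ∂μ =
          ∑ i ∈ s, u i * ∫ x in Q, ph T f g w (N k) (θ k) i.1 b i.2 x ∂μ := by
        intro k
        rw [integral_finsetSum _ fun i _ => ((hphi k i.1 b i.2).integrableOn).const_mul (u i)]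
        exact Finset.sum_congr rfl fun i _ => integral_const_mul _ _
      have e4 : ∫ x in Q, ∑ i ∈ s, u i * R i.1 b i.2 x ∂μ =
          ∑ i ∈ s, u i * ∫ x in Q, R i.1 b i.2 x ∂μ := by
        rw [integral_finsetSum _ fun i _ => ((hL.int i.1 b i.2).integrableOn).const_mul (u i)]
        exact Finset.sum_congr rfl fun i _ => integral_const_mul _ _
      simp only [e3]
      rw [e4]
      exact tendsto_finsetSum _ fun i _ => (hL.lim i.1 b i.2 Q hQ).const_mul (u i)
    · intro Q hQ
      refine h3 B w p hW X μ T.symm g hT' hg hg1 s u Q ?_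
      rw [invariants_symm]
      exact hQ
  -- uniformity
  rw [ae_all_iff]
  intro b
  rw [ae_all_iff]
  intro s
  have hct := h5 X μ {i // i ∈ s}
    (fun x v => ‖∑ i ∈ s, ez s v i * R i.1 b i.2 x‖ ^ 2)
    (fun x v => (qf p (pf μ T.symm g x) s (ez s v)).re) (fun x => ?_) (fun x => ?_) ?_
  · filter_upwards [hct] with x hx u
    have h7 := hx fun i => u i.1
    have e1 : ∀ i ∈ s, ez s (fun i => u i.1) i = u i := fun i hi => ez_of_mem _ hi
    have e2 : ∑ i ∈ s, ez s (fun i => u i.1) i * R i.1 b i.2 x = ∑ i ∈ s, u i * R i.1 b i.2 x :=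
      Finset.sum_congr rfl fun i hi => by rw [e1 i hi]
    have e3 : qf p (pf μ T.symm g x) s (ez s fun i => u i.1) = qf p (pf μ T.symm g x) s u := by
      unfold qf
      exact Finset.sum_congr rfl fun i hi => Finset.sum_congr rfl fun j hj => by
        rw [e1 i hi, e1 j hj]
    rw [e2, e3] at h7
    exact h7
  · have := fun i => ez_cont (s := s) i
    exact (continuous_finsetSum _ fun i _ => (this i).mul continuous_const).norm.pow 2
  · have := fun i => ez_cont (s := s) i
    unfold qf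
    refine Complex.continuous_re.comp ?_
    exact continuous_finsetSum _ fun i _ => continuous_finsetSum _ fun j _ =>
      (((this i).mul (Complex.continuous_conj.comp (this j))).mul continuous_const).mul
        continuous_const
  · intro v
    filter_upwards [key b s (ez s v), h6 X μ T.symm g hT' hg hg1] with x hx hp
    refine hx.trans (le_of_eq ?_)
    unfold qf
    congr 1
    exact Finset.sum_congr rfl fun i _ => Finset.sum_congr rfl fun j _ => by rw [hp.1]

end Pool.Agent.H17.SS
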