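import Pool.Agent.H84.SS.Targets

/-!
# Return times for double recurrence, singular spectrum, A_LIX: essentially bounded functions
-/

set_option autoImplicit false

namespace Pool.Agent.H17.SS

open MeasureTheory Filter Topology Set ProbabilityTheory
open scoped ENNReal ComplexConjugate
open Pool.Agent.H84.SS
open Pool.Agent.H85.RT (avg GoodWeight Good)
open Pool.Agent.H94.RTB (LGood PD)

universe u v

theorem pf_LIX : A_LIX.{u} := by
  classical
  intro X _ μ _ T hT f hf
  obtain ⟨C0, hC0, hb⟩ : ∃ C0 : ℝ, 0 ≤ C0 ∧ ∀ᵐ x ∂μ, ‖f x‖ ≤ C0 := by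
    have h1 := ae_le_eLpNormEssSup (f := f) (μ := μ)
    have h2 : eLpNormEssSup f μ < ⊤ := by
      have := hf.2
      rwa [eLpNorm_exponent_top] at this
    refine ⟨(eLpNormEssSup f μ).toReal, ENNReal.toReal_nonneg, ?_⟩
    filter_upwards [h1] with x hx
    have h3 := ENNReal.toReal_mono h2.ne hx
    rwa [toReal_enorm] at h3
  have hm := hf.1.aemeasurable
  set f1 : X → ℂ := hm.mk f with hf1
  have hf1m : Measurable f1 := hm.measurable_mk
  have hCp : 0 < C0 + 1 := by linarith
  set f' : X → ℂ := fun x => if ‖f1 x‖ ≤ C0 + 1 then f1 x / ((C0 + 1 : ℝ) : ℂ) else 0 with hf'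
  have hf'm : Measurable f' := Measurable.ite (measurableSet_le hf1m.norm measurable_const)
    (hf1m.div_const _) measurable_const
  have hCc : ((C0 + 1 : ℝ) : ℂ) ≠ 0 := by exact_mod_cast hCp.ne'
  refine ⟨C0 + 1, f', hCp, hf'm, fun x => ?_, ?_⟩
  · simp only [hf']
    split_ifs with h
    · rw [norm_div, Complex.norm_real, Real.norm_eq_abs, abs_of_pos hCp, div_le_one hCp]
      exact h
    · rw [norm_zero]
      exact zero_le_one
  · have hgood : ∀ᵐ x ∂μ, f x = ((C0 + 1 : ℝ) : ℂ) * f' x := by
      filter_upwards [hb, hm.ae_eq_mk] with x h1 h2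
      have h3 : ‖f1 x‖ ≤ C0 + 1 := by
        have h4 : f1 x = f x := h2.symm
        rw [h4]
        linarith
      simp only [hf']
      rw [if_pos h3, mul_div_cancel₀ _ hCc]
      exact h2
    rw [ae_all_iff]
    intro n
    have h1 := (hT.iterate n).quasiMeasurePreserving.ae hgood
    have h2 := ((hT.symm T).iterate n).quasiMeasurePreserving.ae hgood
    filter_upwards [h1, h2] with x h3 h4
    exact ⟨h3, h4⟩

end Pool.Agent.H17.SS
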